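import Pool.Agent.U19.SG.Force
import Pool.Agent.U19.SG.Sanity
import Pool.Agent.Results.MP_17aaef_lc.Independence
import Pool.Agent.Results.MP_fbee13_lc.AlephOneSymmetric
import Pool.Agent.Results.MP_fbee13_lc.RectangleEquivalence

/-!
# Symmetric sets and the `σ`-algebra generated by the additive subgroups: independence of ZFC

`Q1`: every symmetric set of reals is in the `σ`-algebra generated by the additive subgroups of `ℝ`.
By the starting file `RectangleEquivalence` this holds if and only if every subset of the plane is in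
the `σ`-algebra generated by all rectangles; `NoRect E` says that this fails for the set `E` (of
cardinality `𝔠`): there is a subset of `E × E` which is not in the `σ`-algebra generated by a
sequence of rectangles.

* The continuum hypothesis implies `Q1` (starting file `AlephOneSymmetric`), and it is forced by
  some forcing notion.
* Some forcing notion (adding `2 ^ 𝔠` Cohen reals) forces that a set `E` has the cardinality of the
  continuum and that `NoRect E` holds.

The forcing languages are those of `Pool.Agent.Helper292.ForceCH` and of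
`Pool.Agent.Helper669.Forcing`: a sentence is the set of the conditions which force it, `fnot`,
`fand`, `fall` are the primitive connectives and `fimp`, `fex` are defined from them classically; a
name for a subset of a ground model set `X` is a map sending `x : X` to a set of conditions, and
`meets N` says that the generic filter meets `N`. The sentences `SizeContN P E` (in
`Pool.Agent.U19.UB.Defs`) and `NoRectN P E` (in `Pool.Agent.U19.SG.Defs`) are the translations of
the propositions `SizeCont E` and `NoRect E`.
-/

set_option autoImplicit false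

namespace Pool.Agent.Results.MP_fbee13_lc.Independence

open Cardinal Set MeasurableSpace Pool.Agent.U19.UB Pool.Agent.U19.SG
open scoped MeasureTheory

/-- Every symmetric set of reals belongs to the `σ`-algebra generated by the additive subgroups. -/
def Q1 : Prop := ∀ Z : Set ℝ, (∀ z ∈ Z, -z ∈ Z) →
  @MeasurableSet ℝ
    (MeasurableSpace.generateFrom {S : Set ℝ | ∃ G : AddSubgroup ℝ, (G : Set ℝ) = S}) Z

theorem countable_rect {X : Type} (T : Set (X × X))
    (h : MeasurableSet[generateFrom {R : Set (X × X) | ∃ A B : Set X, R = A ×ˢ B}] T) :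
    ∃ A B : ℕ → Set X, MP_17aaef_lc.UlamBanach.InSigma (fun n => A n ×ˢ B n) T := by
  have h' : GenerateMeasurable {R : Set (X × X) | ∃ A B : Set X, R = A ×ˢ B} T := h
  induction h' with
  | basic T hT =>
    obtain ⟨A, B, rfl⟩ := hT
    exact ⟨fun _ => A, fun _ => B, measurableSet_generateFrom ⟨0, rfl⟩⟩
  | empty => exact ⟨fun _ => ∅, fun _ => ∅, @MeasurableSet.empty _ (_)⟩
  | compl T h1 ih =>
    obtain ⟨A, B, hAB⟩ := ih h1
    exact ⟨A, B, @MeasurableSet.compl _ _ (_) hAB⟩
  | iUnion T h1 ih =>
    choose A B hAB using fun n => ih n (h1 n)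
    refine ⟨fun k => A k.unpair.1 k.unpair.2, fun k => B k.unpair.1 k.unpair.2, ?_⟩
    refine @MeasurableSet.iUnion _ _ (_) _ _ fun n => ?_
    refine generateFrom_mono ?_ _ (hAB n)
    rintro _ ⟨m, rfl⟩
    exact ⟨Nat.pair n m, by simp⟩

theorem q1_iff {E : Type} (hE : #E = 𝔠) : Q1 ↔ ¬ NoRect E := by
  have hER : #E = #ℝ := by rw [hE, Cardinal.mk_real]
  obtain ⟨e⟩ := Cardinal.eq.1 hER
  refine (RectangleEquivalence.result).trans ⟨?_, ?_⟩
  · rintro H ⟨D, hD⟩
    obtain ⟨A, B, hAB⟩ := countable_rect _ (H {z | D (e.symm z.1, e.symm z.2)})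
    refine hD (fun n x => e x ∈ A n) (fun n x => e x ∈ B n) ?_
    have h1 := MP_17aaef_lc.UlamBanach.inSigma_preimage (Prod.map e e) _ _ hAB
    have h2 := (MP_17aaef_lc.Independence.inSig_iff _ _).2 h1
    have h3 : D = fun x : E × E =>
        x ∈ Prod.map e e ⁻¹' {z : ℝ × ℝ | D (e.symm z.1, e.symm z.2)} := by
      funext x
      refine propext ?_
      show D x ↔ D (e.symm (e x.1), e.symm (e x.2))
      simp
    rw [h3]
    exact h2
  · intro H D
    unfold NoRect at H
    push Not at H
    obtain ⟨A, B, hAB⟩ := H fun z => (e z.1, e z.2) ∈ D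
    have h1 := (MP_17aaef_lc.Independence.inSig_iff
      (fun n => {z : E × E | A n z.1 ∧ B n z.2}) {z | (e z.1, e z.2) ∈ D}).1 hAB
    have h2 := MP_17aaef_lc.UlamBanach.inSigma_preimage (Prod.map e.symm e.symm) _ _ h1
    have h3 : Prod.map e.symm e.symm ⁻¹' {z : E × E | (e z.1, e z.2) ∈ D} = D := by
      ext z; simp
    rw [h3] at h2
    refine generateFrom_mono ?_ _ h2
    rintro _ ⟨n, rfl⟩
    refine ⟨{x | A n (e.symm x)}, {x | B n (e.symm x)}, ?_⟩
    ext z; simp

/-- **Q1 is independent of ZFC.** (1) `SizeCont E` says that `E` has the cardinality of the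
continuum, and for these sets `Q1` is equivalent to the negation of `NoRect E`. (2) The continuum
hypothesis implies `Q1`, and some forcing notion forces that `ω₁` is preserved and that the
continuum hypothesis holds. (3) For some forcing notion `P` and some set `E`, every condition forces
that all cardinals of the ground model are cardinals, that `ω₁` is preserved, that `E` has the
cardinality of the continuum and that `NoRect E` holds, that is, the negative answer. (4) For the
trivial forcing notion the sentences used in (3) are `SizeCont E` and `NoRect E`. -/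
theorem result :
    (∀ E : Type, (SizeCont E ↔ #E = 𝔠) ∧ (#E = 𝔠 → (Q1 ↔ ¬ NoRect E))) ∧
    (((𝔠 : Cardinal.{0}) = ℵ₁ → Q1) ∧
      ∃ (P : Type) (_ : Preorder P), Nonempty P ∧ ∀ p : P,
        p ∈ Helper292.ForceCH.OmegaOnePreserved P ∧ p ∈ Helper292.ForceCH.CHHolds P) ∧
    (∃ (P : Type) (_ : Preorder P) (E : Type), Nonempty P ∧ ∀ p : P,
      p ∈ Helper669.Forcing.CardinalsPreserved.{0, 0} P ∧ p ∈ W684.FM.OmegaOnePreserved P ∧
        p ∈ SizeContN P E ∧ p ∈ NoRectN P E) ∧
    ∀ E : Type, (() ∈ SizeContN Unit E ↔ SizeCont E) ∧ (() ∈ NoRectN Unit E ↔ NoRect E) := by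
  refine ⟨fun E => ⟨sizeCont_iff E, fun hE => q1_iff hE⟩, ⟨fun h Z hZ => ?_, ?_⟩,
    exists_forcing_noRect, fun E => ⟨sizeContN_unit, noRectN_unit⟩⟩
  · refine AlephOneSymmetric.result Z hZ ?_
    rw [← h, ← Cardinal.mk_real]
    exact mk_set_le Z
  · obtain ⟨P, i, h1, h2⟩ := Helper292.ForceCH.exists_forcing
    exact ⟨P, i, h1, fun p => ⟨(h2 p).1, (h2 p).2.2⟩⟩

end Pool.Agent.Results.MP_fbee13_lc.Independence
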